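import Pool.Agent.Y122.TQ.Defs

set_option autoImplicit false

/-!
# Project TQ: the Euler product of the main term (job TQ-EP)
-/

namespace Pool.Agent.Y737.TQ

open Finset Filter Topology
open Pool.Agent.H306R2 (dv dA lc lc_zero lc_succ' dv_one dv_prime_pow dA_mult dA_apply)
open Pool.Agent.H306R2.RZ (nu)
open Pool.Agent.Y122.TQ

noncomputable section

theorem asc_eq (β : ℝ) (n : ℕ) :
    (ascPochhammer ℝ n).eval β = (n.factorial : ℝ) * lc β n := by
  induction n with
  | zero => simp [lc_zero]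
  | succ n ih =>
    rw [ascPochhammer_succ_eval, ih, Nat.factorial_succ]
    push_cast
    have := lc_succ' β n
    linear_combination (-(n.factorial : ℝ)) * this

theorem choose_eq (β : ℝ) (n : ℕ) : Ring.choose (β + n - 1) n = lc β n := by
  have h1 : Ring.choose (β + n - 1) n = Ring.multichoose β n := by
    rw [Ring.choose]
    congr 1
    ring
  have h2 := Ring.factorial_nsmul_multichoose_eq_ascPochhammer β n
  rw [Polynomial.ascPochhammer_smeval_eq_eval, asc_eq, nsmul_eq_mul] at h2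
  rw [h1]
  exact mul_left_cancel₀ (by positivity : (n.factorial : ℝ) ≠ 0) h2

/-- the binomial series -/
theorem bin (β y : ℝ) (hy : |y| < 1) :
    HasSum (fun n : ℕ => lc β n * y ^ n) ((1 - y) ^ (-β)) := by
  have h := Real.one_div_one_sub_rpow_hasFPowerSeriesOnBall_zero β
  have hm : y ∈ Metric.eball (0 : ℝ) 1 := by
    rw [Metric.mem_eball, edist_zero_right, Real.enorm_eq_ofReal_abs]
    exact ENNReal.ofReal_lt_one.2 hy
  have h2 := h.hasSum hm
  rw [zero_add] at h2
  have h3 : (1 : ℝ) / (1 - y) ^ β = (1 - y) ^ (-β) := by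
    rw [Real.rpow_neg (by linarith [(abs_lt.1 hy).2]), one_div]
  rw [h3] at h2
  have e : (fun n : ℕ => lc β n * y ^ n) = fun n : ℕ =>
      (FormalMultilinearSeries.ofScalars ℝ (fun n : ℕ => Ring.choose (β + n - 1) n) n)
        (fun _ => y) := by
    funext n
    rw [FormalMultilinearSeries.ofScalars_apply_eq, choose_eq, smul_eq_mul]
  rw [e]
  exact h2

/-- the even part -/
theorem even_part (β x : ℝ) (hx : |x| < 1) :
    HasSum (fun j : ℕ => lc β (2 * j) * x ^ (2 * j))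
      (((1 - x) ^ (-β) + (1 + x) ^ (-β)) / 2) := by
  have h1 := bin β x hx
  have h2 := bin β (-x) (by rwa [abs_neg])
  rw [sub_neg_eq_add] at h2
  have h3 := (h1.add h2).div_const 2
  have hinj : Function.Injective fun j : ℕ => 2 * j := fun a b h => by
    have : 2 * a = 2 * b := h
    omega
  have h4 := (hinj.hasSum_iff (f := fun n : ℕ => (lc β n * x ^ n + lc β n * (-x) ^ n) / 2)
    (a := ((1 - x) ^ (-β) + (1 + x) ^ (-β)) / 2) (by
    intro n hn
    have hodd : Odd n := by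
      rw [← Nat.not_even_iff_odd]
      rintro ⟨j, hj⟩
      exact hn ⟨j, by simp only; omega⟩
    rw [hodd.neg_pow]
    ring)).2 h3
  have e : (fun j : ℕ => lc β (2 * j) * x ^ (2 * j)) =
      (fun n : ℕ => (lc β n * x ^ n + lc β n * (-x) ^ n) / 2) ∘ fun j : ℕ => 2 * j := by
    funext j
    simp only [Function.comp_apply]
    rw [(even_two_mul j).neg_pow]
    ring
  rw [e]
  exact h4

/-- the coefficients of the main term -/
def fM (β δ : ℝ) (m : ℕ) : ℝ :=
  if Odd m then dv β (m ^ 2) * nu m * (m : ℝ) ^ (-(1 + 2 * δ)) else 0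

theorem fM_zero (β δ : ℝ) : fM β δ 0 = 0 := by
  unfold fM
  rw [if_neg (by decide)]

theorem nu_one : nu 1 = 1 := by
  unfold nu
  simp

theorem fM_one (β δ : ℝ) : fM β δ 1 = 1 := by
  unfold fM
  rw [if_pos odd_one, one_pow, dv_one, nu_one]
  simp

theorem nu_mul {m n : ℕ} (h : Nat.Coprime m n) : nu (m * n) = nu m * nu n := by
  unfold nu
  rw [h.primeFactors_mul, prod_union h.disjoint_primeFactors]

theorem fM_mul (β δ : ℝ) {m n : ℕ} (h : Nat.Coprime m n) :
    fM β δ (m * n) = fM β δ m * fM β δ n := by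
  unfold fM
  by_cases hm : Odd m
  · by_cases hn : Odd n
    · rw [if_pos (hm.mul hn), if_pos hm, if_pos hn, mul_pow, nu_mul h]
      have e : dv β (m ^ 2 * n ^ 2) = dv β (m ^ 2) * dv β (n ^ 2) :=
        (dA_mult β).map_mul_of_coprime (h.pow 2 2)
      rw [e]
      push_cast
      rw [Real.mul_rpow (Nat.cast_nonneg m) (Nat.cast_nonneg n)]
      ring
    · rw [if_neg hn, if_neg (fun h' => hn (Nat.odd_mul.1 h').2), mul_zero]
  · rw [if_neg hm, if_neg (fun h' => hm (Nat.odd_mul.1 h').1), zero_mul]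

theorem fM_sum (h : S_MTB) (β δ : ℝ) (hδ : 0 < δ) : Summable fun m : ℕ => ‖fM β δ m‖ := by
  obtain ⟨C, E, _, hC⟩ := h ⌈|β|⌉₊
  by_cases h1 : δ ≤ 1
  · exact (hC β (Nat.le_ceil _) δ hδ h1).1.norm
  · have h2 := (hC β (Nat.le_ceil _) 1 one_pos le_rfl).1.norm
    refine Summable.of_nonneg_of_le (fun m => norm_nonneg (fM β δ m)) (fun m => ?_) h2
    show ‖fM β δ m‖ ≤ ‖fM β 1 m‖
    unfold fM
    split_ifs with hm
    · rw [norm_mul (dv β (m ^ 2) * nu m), norm_mul (dv β (m ^ 2) * nu m)]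
      refine mul_le_mul_of_nonneg_left ?_ (norm_nonneg (dv β (m ^ 2) * nu m))
      have hm1 : (1 : ℝ) ≤ m := by exact_mod_cast hm.pos
      rw [Real.norm_of_nonneg (by positivity), Real.norm_of_nonneg (by positivity)]
      exact Real.rpow_le_rpow_of_exponent_le hm1 (by linarith)
    · exact le_rfl

theorem fM_pow (β δ : ℝ) {p : ℕ} (hp : p.Prime) (hp2 : p ≠ 2) (j : ℕ) :
    fM β δ (p ^ j) = (1 + 1 / (p : ℝ))⁻¹ * (lc β (2 * j) * ((p : ℝ) ^ (-(1 / 2 + δ))) ^ (2 * j)) +
      if j = 0 then 1 - (1 + 1 / (p : ℝ))⁻¹ else 0 := by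
  have hp0 : (0 : ℝ) < p := by exact_mod_cast hp.pos
  by_cases hj : j = 0
  · subst hj
    rw [pow_zero, fM_one, if_pos rfl, mul_zero, lc_zero, pow_zero]
    ring
  · rw [if_neg hj, add_zero]
    have hodd : Odd (p ^ j) := (hp.odd_of_ne_two hp2).pow
    unfold fM
    rw [if_pos hodd, ← pow_mul, dv_prime_pow β hp, mul_comm j 2]
    have h1 : nu (p ^ j) = (1 + 1 / (p : ℝ))⁻¹ := by
      unfold nu
      rw [Nat.primeFactors_prime_pow hj hp, prod_singleton]
      field_simp
    have h2 : ((p ^ j : ℕ) : ℝ) ^ (-(1 + 2 * δ)) = ((p : ℝ) ^ (-(1 / 2 + δ))) ^ (2 * j) := by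
      push_cast
      rw [← Real.rpow_natCast, ← Real.rpow_mul hp0.le, ← Real.rpow_natCast, ← Real.rpow_mul hp0.le]
      congr 1
      push_cast
      ring
    rw [h1, h2]
    ring

theorem fM_two (β δ : ℝ) (j : ℕ) : fM β δ (2 ^ j) = if j = 0 then 1 else 0 := by
  by_cases hj : j = 0
  · subst hj
    rw [pow_zero, fM_one, if_pos rfl]
  · rw [if_neg hj]
    unfold fM
    rw [if_neg]
    rw [Nat.not_odd_iff_even]
    exact (Nat.even_pow.2 ⟨even_two, hj⟩)

/-- the Euler factors -/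
theorem fac (β δ : ℝ) (hδ : 0 < δ) {p : ℕ} (hp : p.Prime) :
    ∑' j : ℕ, fM β δ (p ^ j) = if p = 2 then 1 else lfac β δ p := by
  by_cases hp2 : p = 2
  · subst hp2
    rw [if_pos rfl, tsum_congr fun j => fM_two β δ j, tsum_ite_eq]
  · rw [if_neg hp2, tsum_congr fun j => fM_pow β δ hp hp2 j]
    have hp1 : (1 : ℝ) < p := by exact_mod_cast hp.one_lt
    have hx : |(p : ℝ) ^ (-(1 / 2 + δ))| < 1 := by
      rw [abs_of_nonneg (by positivity)]
      exact Real.rpow_lt_one_of_one_lt_of_neg hp1 (by linarith)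
    have h1 := (even_part β _ hx).mul_left (1 + 1 / (p : ℝ))⁻¹
    have h2 : HasSum (fun j : ℕ => if j = 0 then 1 - (1 + 1 / (p : ℝ))⁻¹ else 0)
        (1 - (1 + 1 / (p : ℝ))⁻¹) := hasSum_ite_eq 0 _
    rw [(h1.add h2).tsum_eq]
    unfold lfac
    have hp0 : (0 : ℝ) < p := by linarith
    have h3 : (1 + 1 / (p : ℝ)) ≠ 0 := by positivity
    field_simp
    ring

theorem EP (h : S_MTB) : S_EP := by
  intro β δ hδ
  have h1 := EulerProduct.eulerProduct_hasProd (f := fM β δ) (fM_one β δ)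
    (fun {m n} hmn => fM_mul β δ hmn) (fM_sum h β δ hδ) (fM_zero β δ)
  have h2 : HasProd (fun p : Nat.Primes => if (p : ℕ) = 2 then lfac β δ 2 else 1)
      (lfac β δ 2) := by
    have h3 := hasProd_single (f := fun p : Nat.Primes => if (p : ℕ) = 2 then lfac β δ 2 else 1)
      (⟨2, Nat.prime_two⟩ : Nat.Primes) (fun p hp => if_neg fun h' => hp (Subtype.ext h'))
    simpa using h3
  have h3 := h2.mul h1
  have e1 : (fun p : Nat.Primes => (if (p : ℕ) = 2 then lfac β δ 2 else 1) *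
      ∑' j : ℕ, fM β δ ((p : ℕ) ^ j)) = fun p : Nat.Primes => lfac β δ p := by
    funext p
    rw [fac β δ hδ p.2]
    by_cases hp : (p : ℕ) = 2
    · rw [if_pos hp, if_pos hp, mul_one, hp]
    · rw [if_neg hp, if_neg hp, one_mul]
  rw [e1] at h3
  exact h3

end

end Pool.Agent.Y737.TQ
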